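import Pool.Agent.H173R3.ZT.Gam
import Pool.Agent.W466.CA

/-!
# Zilber's conjecture for translates: the main argument with arbitrary exponent vectors

The proofs of this file are those of `Pool.Agent.H173R3.ZT` (`Core`, `Fam`, `Gam`), for arbitrary
exponent vectors and all large primes instead of one residue class.
-/

set_option autoImplicit false

namespace Pool.Agent.N712.ZT

open MvPolynomial Pool.Agent.H173R3.ZT

variable {n : ℕ}

theorem core2 {F : Type*} [Field F] (d : ℕ)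
    (f : {J : Finset (Fin n) // J.card = d + 1} → MvPolynomial (Fin n) F)
    (hf0 : ∀ J, f J ≠ 0) (hfJ : ∀ J, ∀ α ∈ (f J).support, ∀ j, j ∉ J.1 → α j = 0)
    (L t : ℕ) (hL : (Fintype.piFinset fun J => (f J).support ×ˢ (f J).support).card * t < L)
    (O : Fin L → ValuationSubring F) (q : Fin L → F)
    (hq : ∀ i, (O i).valuation (q i) < 1) (hq0 : ∀ i, q i ≠ 0)
    (hc : ∀ i, ∀ J, ∀ α ∈ (f J).support, (O i).valuation ((f J).coeff α) = 1)
    (x : Fin n → F) (hx : ∀ j, x j ≠ 0) (hfx : ∀ J, eval x (f J) = 0)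
    (g : Fin n → F) (e : Fin L → Fin n → ℤ)
    (he : ∀ χ : Fin n → ℤ, χ ≠ 0 → {l | ∑ j, χ j * e l j = 0}.ncard ≤ t)
    (hg : ∀ i, ∀ j : Fin n, (O i).valuation (g j) = (O i).valuation (q i) ^ (e i j))
    (Λ : Submodule ℤ (Fin n → ℤ))
    (hΛ : ∀ a ∈ Λ, ∀ i, (O i).valuation (chr (fun j => g j * x j) a) = 1) :
    Module.finrank ℤ Λ ≤ d := by
  classical
  by_contra hcon
  have hrank : d + 1 ≤ Module.finrank ℤ Λ := by omega
  -- tropical relations
  have h1 : ∀ i : Fin L, ∀ J : {J : Finset (Fin n) // J.card = d + 1},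
      ∃ p : (Fin n →₀ ℕ) × (Fin n →₀ ℕ),
        (p ∈ (f J).support ×ˢ (f J).support ∧ p.1 ≠ p.2 ∧ iv p.1 - iv p.2 ∈ vlat (O i) x hx) := by
    intro i J
    obtain ⟨α, hα, β, hβ, h1, h2⟩ := exists_pair (O i) x hx (f J) (hf0 J) (hc i J) (hfx J)
    exact ⟨(α, β), Finset.mk_mem_product hα hβ, h1, h2⟩
  choose p hp using h1
  obtain ⟨s, hs, hcard⟩ := Finset.exists_lt_card_fiber_of_mul_lt_card_of_maps_to
    (s := (Finset.univ : Finset (Fin L)))
    (t := Fintype.piFinset fun J => (f J).support ×ˢ (f J).support)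
    (f := p) (n := t)
    (fun i _ => Fintype.mem_piFinset.2 fun J => (hp i J).1)
    (by rw [Finset.card_univ, Fintype.card_fin]; exact hL)
  set I := (Finset.univ : Finset (Fin L)).filter fun i => p i = s with hI
  have hIK : ∀ i ∈ I, p i = s := fun i hi => by
    rw [hI, Finset.mem_filter] at hi
    exact hi.2
  have hIne : I.Nonempty := Finset.card_pos.1 (by omega)
  set D : Submodule ℤ (Fin n → ℤ) := Submodule.span ℤ (Set.range fun J => iv (s J).1 - iv (s J).2)
    with hD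
  have hDv : ∀ i ∈ I, D ≤ vlat (O i) x hx := by
    intro i hi
    rw [hD, Submodule.span_le]
    rintro _ ⟨J, rfl⟩
    have h2 := (hp i J).2.2
    rw [hIK i hi] at h2
    exact h2
  obtain ⟨i₀, hi₀⟩ := hIne
  have hD2 : ∀ J : Finset (Fin n), J.card = d + 1 →
      ∃ χ ∈ D, χ ≠ 0 ∧ ∀ j, j ∉ J → χ j = 0 := by
    intro J hJ
    have h2 := hp i₀ ⟨J, hJ⟩
    rw [hIK i₀ hi₀] at h2
    obtain ⟨h3, h4, -⟩ := h2
    rw [Finset.mem_product] at h3
    refine ⟨iv (s ⟨J, hJ⟩).1 - iv (s ⟨J, hJ⟩).2, Submodule.subset_span ⟨⟨J, hJ⟩, rfl⟩, ?_, ?_⟩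
    · intro h5
      apply h4
      ext j
      have h6 := congrFun h5 j
      simp only [iv, Pi.sub_apply, Pi.zero_apply] at h6
      omega
    · intro j hj
      have h5 := hfJ ⟨J, hJ⟩ _ h3.1 j hj
      have h6 := hfJ ⟨J, hJ⟩ _ h3.2 j hj
      simp [iv, h5, h6]
  obtain ⟨χ, hχΛ, hχD, hχ0⟩ := exists_mem_inf D Λ hD2 hrank
  have hsub : (↑I : Set (Fin L)) ⊆ {l | ∑ j, χ j * e l j = 0} := by
    intro i hi
    have hi' : i ∈ I := Finset.mem_coe.1 hi
    have h2 := hΛ χ hχΛ i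
    have h3 : (O i).valuation (chr x χ) = 1 := hDv i hi' hχD
    rw [chr_mul, map_mul, h3, mul_one] at h2
    set v := (O i).valuation (q i) with hv
    have hv0 : v ≠ 0 := (Valuation.ne_zero_iff _).2 (hq0 i)
    have hv1 : v < 1 := hq i
    have h4 : (O i).valuation (chr g χ) = v ^ (∑ j : Fin n, χ j * e i j) := by
      rw [chr, map_prod]
      have h5 : ∀ j : Fin n, (O i).valuation (g j ^ χ j) = v ^ (χ j * e i j) := by
        intro j
        rw [map_zpow₀, hg i j, ← zpow_mul, mul_comm]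
      simp only [h5]
      exact (zpow_sum hv0 _ _).symm
    rw [h4] at h2
    exact (zpow_eq_one_iff_right₀ zero_le hv1.ne).1 h2
  have h6 := Set.ncard_le_ncard hsub (Set.toFinite _)
  rw [Set.ncard_coe_finset] at h6
  have h7 := he χ hχ0
  omega

/-- the translates with good relations at all points -/
def Good {n : ℕ} (P : Ideal (MvPolynomial (Fin n) ℂ)) (d : ℕ) (G₀ : Finset ℂˣ) (g : Fin n → ℂ) : Prop :=
  ∀ (Ω : Type) [Field Ω] [Algebra ℂ Ω] (x : Fin n → Ω), (∀ j, x j ≠ 0) →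
    (∀ f ∈ P, aeval x f = 0) → ∀ Λ : Submodule ℤ (Fin n → ℤ),
      (∀ a ∈ Λ, ∃ m : ℕ, 0 < m ∧ ∃ c ∈ Subgroup.closure (G₀ : Set ℂˣ),
        chr (fun j => algebraMap ℂ Ω (g j) * x j) a ^ m = algebraMap ℂ Ω (c : ℂ)) →
      Module.finrank ℤ Λ ≤ d

/-- **Main theorem for points**: any places above large primes -/
theorem exists_good {d : ℕ} (P : Ideal (MvPolynomial (Fin n) ℂ)) [P.IsPrime]
    (hd : Algebra.trdeg ℂ (MvPolynomial (Fin n) ℂ ⧸ P) = d) :
    ∃ κ : ℕ, ∀ G₀ : Finset ℂˣ, ∃ D : ℕ, ∀ L t : ℕ, κ * t < L → ∀ q : Fin L → ℕ,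
      (∀ i, (q i).Prime ∧ D < q i) → ∀ e : Fin L → Fin n → ℤ,
      (∀ χ : Fin n → ℤ, χ ≠ 0 → {l | ∑ j, χ j * e l j = 0}.ncard ≤ t) → ∀ g : Fin n → ℂ,
      (∀ i j, ∀ O : ValuationSubring ℂ, (q i : ℂ) ∈ O.nonunits →
        O.valuation (g j) = O.valuation (q i : ℂ) ^ (e i j)) → Good P d G₀ g := by
  classical
  choose f hfP hf0 hfJ using fun J : {J : Finset (Fin n) // J.card = d + 1} =>
    exists_dep P hd J.1 J.2
  refine ⟨(Fintype.piFinset fun J => (f J).support ×ˢ (f J).support).card, fun G₀ => ?_⟩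
  set s : Finset ℂ := (Finset.univ.biUnion fun J => (f J).support.image fun α => (f J).coeff α) ∪
    G₀.image (fun c : ℂˣ => (c : ℂ)) with hs
  obtain ⟨D, hD⟩ := Pool.Agent.W466.ZC.exists_val (ι := {u // u ∈ s ∪ s.image fun u => u⁻¹})
    (fun u => (u : ℂ))
  refine ⟨D, fun L t hL q hq e he g hg Ω _ _ x hx hxP Λ hΛ => ?_⟩
  have hchar : CharZero Ω := charZero_of_injective_algebraMap (algebraMap ℂ Ω).injective
  choose O hO1 hO2 using fun i : Fin L => hD (q i) (hq i).1 (hq i).2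
  have hO : ∀ i, (O i).valuation (q i : ℂ) < 1 := fun i => by
    have := hO1 i
    rwa [ValuationSubring.mem_nonunits_iff] at this
  have hsO : ∀ i, ∀ u ∈ s, u ≠ 0 → (O i).valuation u = 1 := by
    intro i u hu hu0
    have h1 : u ∈ O i := hO2 i ⟨u, Finset.mem_union_left _ hu⟩
    have h2 : u⁻¹ ∈ O i := hO2 i ⟨u⁻¹, Finset.mem_union_right _ (Finset.mem_image_of_mem _ hu)⟩
    have h3 : (O i).valuation u ≤ 1 := ((O i).valuation_le_one_iff u).2 h1
    have h4 : (O i).valuation u⁻¹ ≤ 1 := ((O i).valuation_le_one_iff _).2 h2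
    refine le_antisymm h3 ?_
    have h5 : (O i).valuation u * (O i).valuation u⁻¹ = 1 := by
      rw [← map_mul, mul_inv_cancel₀ hu0, map_one]
    calc (1 : _) = (O i).valuation u * (O i).valuation u⁻¹ := h5.symm
      _ ≤ (O i).valuation u * 1 := by gcongr
      _ = (O i).valuation u := mul_one _
  choose O' h1 h2 h3 using fun i => exists_extend (Ω := Ω) (O i)
  have hq0 : ∀ i, (q i : Ω) ≠ 0 := fun i => Nat.cast_ne_zero.2 (hq i).1.ne_zero
  have hqC : ∀ i, (q i : ℂ) ≠ 0 := fun i => Nat.cast_ne_zero.2 (hq i).1.ne_zero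
  have hqO' : ∀ i, (O' i).valuation (q i : Ω) < 1 := by
    intro i
    have := h2 i (q i) (hO i)
    rwa [map_natCast] at this
  have hsupp : ∀ J, (map (algebraMap ℂ Ω) (f J)).support = (f J).support := fun J =>
    support_map_of_injective _ (algebraMap ℂ Ω).injective
  -- the valuations of the coordinates of `g`
  have hgv : ∀ i, ∀ j : Fin n,
      (O' i).valuation (algebraMap ℂ Ω (g j)) = (O' i).valuation (q i : Ω) ^ (e i j) := by
    intro i j
    have h4 := hg i j (O i) (hO1 i)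
    have hv0 : (O i).valuation (q i : ℂ) ≠ 0 := (Valuation.ne_zero_iff _).2 (hqC i)
    have h5 : (O i).valuation (g j * (q i : ℂ) ^ (-(e i j))) = 1 := by
      rw [map_mul, h4, map_zpow₀, ← zpow_add₀ hv0, add_neg_cancel, zpow_zero]
    have h6 := h3 i _ h5
    rw [map_mul, map_zpow₀, map_natCast, map_mul, map_zpow₀] at h6
    have hv0' : (O' i).valuation (q i : Ω) ≠ 0 := (Valuation.ne_zero_iff _).2 (hq0 i)
    calc (O' i).valuation (algebraMap ℂ Ω (g j))
        = (O' i).valuation (algebraMap ℂ Ω (g j)) * ((O' i).valuation (q i : Ω) ^ (-(e i j)) *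
          (O' i).valuation (q i : Ω) ^ (e i j)) := by
          rw [← zpow_add₀ hv0', neg_add_cancel, zpow_zero, mul_one]
      _ = (O' i).valuation (q i : Ω) ^ (e i j) := by rw [← mul_assoc, h6, one_mul]
  refine core2 d (fun J => map (algebraMap ℂ Ω) (f J)) ?_ ?_ L t ?_ O' (fun i => (q i : Ω)) hqO'
    hq0 ?_ x hx ?_ (fun j => algebraMap ℂ Ω (g j)) e he hgv Λ ?_
  · intro J h
    exact hf0 J (map_injective _ (algebraMap ℂ Ω).injective (by rw [h, map_zero]))
  · intro J α hα j hj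
    rw [hsupp] at hα
    exact hfJ J α hα j hj
  · simp only [hsupp]
    exact hL
  · intro i J α hα
    rw [hsupp] at hα
    rw [coeff_map]
    refine h3 i _ (hsO i _ ?_ (mem_support_iff.1 hα))
    rw [hs]
    exact Finset.mem_union_left _
      (Finset.mem_biUnion.2 ⟨J, Finset.mem_univ _, Finset.mem_image_of_mem _ hα⟩)
  · intro J
    rw [eval_map]
    exact hxP _ (hfP J)
  · intro a ha i
    obtain ⟨m, hm, c, hc, h4⟩ := hΛ a ha
    have hcv : (O i).valuation (c : ℂ) = 1 := by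
      refine val_closure G₀ (fun u hu => hsO i _ ?_ u.ne_zero) c hc
      rw [hs]
      exact Finset.mem_union_right _ (Finset.mem_image_of_mem _ hu)
    have h5 : (O' i).valuation (chr (fun j => algebraMap ℂ Ω (g j) * x j) a) ^ m = 1 := by
      rw [← map_pow, h4, h3 i _ hcv]
    exact (pow_eq_one_iff_of_nonneg zero_le hm.ne').1 h5

end Pool.Agent.N712.ZT
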