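import Pool.Agent.N712.ZT.Core2

/-!
# Positive dimensional intersections

The proof is that of `Pool.Agent.H173R3.ZT.exists_class_pos_G`, for arbitrary translates.
-/

set_option autoImplicit false

namespace Pool.Agent.N712.ZT

open MvPolynomial Pool.Agent.H173R3.ZT

variable {n : ℕ}

theorem pos_of_good {d : ℕ} (P : Ideal (MvPolynomial (Fin n) ℂ)) (G₀ : Finset ℂˣ) (g : Fin n → ℂ)
    (hg0 : ∀ j, g j ≠ 0) (hmain : Good P d G₀ g)
    (Ω : Type) [Field Ω] [Algebra ℂ Ω] (z : Fin n → Ω) (hz : ∀ j, z j ≠ 0)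
    (hzP : ∀ f ∈ P, aeval (fun j => (algebraMap ℂ Ω (g j))⁻¹ * z j) f = 0)
    (T : Finset (Fin n)) (hT : AlgebraicIndependent ℂ (fun j : T => z j))
    (halg : ∀ j, IsAlgebraic (Algebra.adjoin ℂ (Set.range fun j : T => z j)) (z j))
    (Λ : Submodule ℤ (Fin n → ℤ))
    (hΛ : ∀ a ∈ Λ, ∃ m : ℕ, 0 < m ∧ ∃ c ∈ Subgroup.closure (G₀ : Set ℂˣ),
      chr z a ^ m = algebraMap ℂ Ω (c : ℂ)) :
    Module.finrank ℤ Λ + T.card ≤ d := by
  classical
  have hchar : CharZero Ω := charZero_of_injective_algebraMap (algebraMap ℂ Ω).injective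
  set y : T → Ω := fun j => z j with hy
  -- relations
  have hrel : ∀ j : Fin n, ∃ (p : Polynomial Ω) (r s : MvPolynomial T ℂ), r ≠ 0 ∧ s ≠ 0 ∧
      p.coeff 0 = aeval y r ∧ p.leadingCoeff = aeval y s ∧
      (∀ k, ∃ t : MvPolynomial T ℂ, p.coeff k = aeval y t) ∧ p.eval (z j) = 0 := by
    intro j
    obtain ⟨q, hq0, hq⟩ := (halg j).exists_nonzero_coeff_and_aeval_eq_zero
      (mem_nonZeroDivisors_of_ne_zero (hz j))
    set p : Polynomial Ω := q.map (algebraMap (Algebra.adjoin ℂ (Set.range y)) Ω) with hp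
    have hcoef : ∀ k, ∃ t : MvPolynomial T ℂ, p.coeff k = aeval y t := by
      intro k
      rw [hp, Polynomial.coeff_map]
      have h1 : ((q.coeff k : Algebra.adjoin ℂ (Set.range y)) : Ω) ∈
          Algebra.adjoin ℂ (Set.range y) := (q.coeff k).2
      have h2 : ∀ x : Ω, x ∈ Algebra.adjoin ℂ (Set.range y) →
          ∃ t : MvPolynomial T ℂ, aeval y t = x := by
        intro x hx
        rw [Algebra.adjoin_range_eq_range_aeval] at hx
        exact hx
      obtain ⟨t, ht⟩ := h2 _ h1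
      exact ⟨t, ht.symm⟩
    have hinj : Function.Injective (algebraMap (Algebra.adjoin ℂ (Set.range y)) Ω) :=
      Subtype.val_injective
    have hpc0 : p.coeff 0 ≠ 0 := by
      rw [hp, Polynomial.coeff_map]
      intro h
      exact hq0 (hinj (by rw [h, map_zero]))
    have hpl : p.leadingCoeff ≠ 0 := by
      rw [Polynomial.leadingCoeff_ne_zero]
      rintro h
      rw [h, Polynomial.coeff_zero] at hpc0
      exact hpc0 rfl
    obtain ⟨r, hr⟩ := hcoef 0
    obtain ⟨s, hs⟩ := hcoef p.natDegree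
    refine ⟨p, r, s, ?_, ?_, hr, hs, hcoef, ?_⟩
    · rintro rfl
      rw [map_zero] at hr
      exact hpc0 hr
    · rintro rfl
      rw [map_zero] at hs
      exact hpl hs
    · rw [hp, Polynomial.eval_map]
      exact hq
  choose p r s hr hs hpr hps hpt hpz using hrel
  set h : MvPolynomial T ℂ := ∏ j, (r j * s j) with hh
  have hh0 : h ≠ 0 := Finset.prod_ne_zero_iff.2 fun j _ => mul_ne_zero (hr j) (hs j)
  obtain ⟨ζ, hζ, hζh⟩ := exists_torsion_ne_zero h hh0
  have hζr : ∀ j, eval ζ (r j) ≠ 0 ∧ eval ζ (s j) ≠ 0 := by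
    intro j
    rw [hh, map_prod, Finset.prod_ne_zero_iff] at hζh
    have := hζh j (Finset.mem_univ j)
    rw [map_mul] at this
    exact ⟨left_ne_zero_of_mul this, right_ne_zero_of_mul this⟩
  obtain ⟨W, hW1, hW2, hW3⟩ := exists_center y hT ζ
  have hvz : ∀ j, W.valuation (z j) = 1 := by
    intro j
    refine val_eq_one_of_rel W (z j) (p j) ?_ ?_ ?_ (hpz j)
    · rw [hpr]
      exact hW3 _ (hζr j).1
    · rw [hps]
      exact hW3 _ (hζr j).2
    · intro k
      obtain ⟨t, ht⟩ := hpt j k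
      rw [ht]
      exact hW1 t
  have hconst : ∀ c : ℂ, W.valuation (algebraMap ℂ Ω c) ≤ 1 := by
    intro c
    have := hW1 (C c)
    rwa [aeval_C] at this
  have hconst1 : ∀ c : ℂ, c ≠ 0 → W.valuation (algebraMap ℂ Ω c) = 1 := by
    intro c hc
    have := hW3 (C c) (by rwa [eval_C])
    rwa [aeval_C] at this
  -- units of `W`
  have hunit : ∀ x : Ω, W.valuation x = 1 → ∃ u : Wˣ, ((u : W) : Ω) = x := by
    intro x hx
    have hx0 : x ≠ 0 := by
      rintro rfl
      rw [map_zero] at hx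
      exact zero_ne_one hx
    have h1 : x ∈ W := (W.valuation_le_one_iff x).1 hx.le
    have h2 : x⁻¹ ∈ W := (W.valuation_le_one_iff _).1 (by rw [map_inv₀, hx, inv_one])
    exact ⟨⟨⟨x, h1⟩, ⟨x⁻¹, h2⟩, Subtype.ext (mul_inv_cancel₀ hx0),
      Subtype.ext (inv_mul_cancel₀ hx0)⟩, rfl⟩
  choose u hu using fun j => hunit (z j) (hvz j)
  have hgint : ∀ j, W.valuation ((algebraMap ℂ Ω (g j))⁻¹ * z j) = 1 := by
    intro j
    rw [map_mul, map_inv₀, hconst1 (g j) (hg0 j), hvz, inv_one, one_mul]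
  choose w hw using fun j => hunit _ (hgint j)
  let ιC : ℂ →+* W := (algebraMap ℂ Ω).codRestrict W.toSubring
    (fun c => (W.valuation_le_one_iff _).1 (hconst c))
  let ρ : W →+* IsLocalRing.ResidueField W := IsLocalRing.residue W
  let _ : Algebra ℂ (IsLocalRing.ResidueField W) := (ρ.comp ιC).toAlgebra
  have hρne : ∀ v : Wˣ, ρ (v : W) ≠ 0 := fun v =>
    ((Units.map (ρ : W →* IsLocalRing.ResidueField W) v)).ne_zero
  have hPres : ∀ f ∈ P, aeval (fun j => ρ (w j : W)) f = 0 := by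
    intro f hf
    have h1 : eval₂ ιC (fun j => (w j : W)) f = 0 := by
      have h2 : W.subtype (eval₂ ιC (fun j => (w j : W)) f) = 0 := by
        rw [eval₂_comp_left]
        have h3 := hzP f hf
        rw [aeval_def] at h3
        rw [← h3]
        congr 1
        funext j
        exact hw j
      exact Subtype.ext h2
    have h4 : aeval (fun j => ρ (w j : W)) f = ρ (eval₂ ιC (fun j => (w j : W)) f) := by
      rw [aeval_def, eval₂_comp_left]
      rfl
    rw [h4, h1, map_zero]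
  have hzbar : (fun j => algebraMap ℂ (IsLocalRing.ResidueField W) (g j) * ρ (w j : W)) =
      fun j => ρ (u j : W) := by
    funext j
    have e1 : algebraMap ℂ (IsLocalRing.ResidueField W) (g j) = ρ (ιC (g j)) := rfl
    rw [e1, ← map_mul]
    congr 1
    apply Subtype.ext
    have hgj : algebraMap ℂ Ω (g j) ≠ 0 := by rw [Ne, map_eq_zero]; exact hg0 j
    change algebraMap ℂ Ω (g j) * ((w j : W) : Ω) = ((u j : W) : Ω)
    rw [hw, hu, mul_inv_cancel_left₀ hgj]
  have hzne : ∀ j, ρ (u j : W) ≠ 0 := fun j => hρne (u j)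
  have hkey := hmain (IsLocalRing.ResidueField W) (fun j => ρ (w j : W))
    (fun j => hρne (w j)) hPres (divLat G₀ (fun j => ρ (u j : W)) hzne) (fun a ha => by
      rw [hzbar]
      exact ha)
  refine le_trans (finrank_add_card_G z hz T hT Λ (fun a ha => by
    obtain ⟨m, hm, c, -, h⟩ := hΛ a ha
    exact ⟨m, hm, c, h⟩) _ ?_ ?_) hkey
  · intro a ha
    obtain ⟨m, hm, c, hcG, h1⟩ := hΛ a ha
    refine ⟨m, hm, c, hcG, ?_⟩
    have h2 : z = fun j => W.subtype (u j : W) := funext fun j => (hu j).symm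
    rw [h2, chr_units, ← map_pow] at h1
    have h3 : (((∏ j, u j ^ a j : Wˣ) : W)) ^ m = ιC (c : ℂ) := by
      apply Subtype.ext
      exact h1
    rw [chr_units, ← map_pow, h3]
    rfl
  · intro j hj
    obtain ⟨m, hm, h1⟩ := hζ ⟨j, hj⟩
    refine ⟨m, hm, 1, Subgroup.one_mem _, ?_⟩
    rw [Units.val_one, map_one]
    rw [chr_single]
    have h2 : ρ (u j : W) = ρ (ιC (ζ ⟨j, hj⟩)) := by
      have h3 : W.valuation (aeval y (X ⟨j, hj⟩ - C (ζ ⟨j, hj⟩) : MvPolynomial T ℂ)) < 1 :=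
        hW2 _ (by simp)
      have h4 : ((u j : W) - ιC (ζ ⟨j, hj⟩)) ∈ IsLocalRing.maximalIdeal W := by
        rw [ValuationSubring.valuation_lt_one_iff]
        convert h3 using 2
        rw [map_sub, aeval_X, aeval_C]
        change ((u j : W) : Ω) - algebraMap ℂ Ω (ζ ⟨j, hj⟩) = _
        rw [hu]
      rw [← sub_eq_zero, ← map_sub]
      exact (IsLocalRing.residue_eq_zero_iff _).2 h4
    rw [h2, ← map_pow, ← map_pow, h1, map_one, map_one]

end Pool.Agent.N712.ZT
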