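import Pool.Agent.N712.ZT.Pos2
import Pool.Agent.Results.MP_b7926e_nt.NoAtypical

/-!
# Atypical subvarieties of translates

The proofs are those of the starting file `Results.MP_b7926e_nt.NoAtypical`, for arbitrary translates.
-/

set_option autoImplicit false

namespace Pool.Agent.N712.ZT

open MvPolynomial Pool.Agent.H173R3.ZT
open Pool.Agent.Results.MP_b7926e_nt.NoAtypical (coset idealOf dim mem_idealOf)

variable {n : ℕ}

/-- the translate -/
def tl (g : Fin n → ℂ) (V : Set (Fin n → ℂ)) : Set (Fin n → ℂ) :=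
  {y | ∃ x ∈ V, ∀ i, y i = g i * x i}

/-- the scaling of the variables by `g` -/
noncomputable def sc (g : Fin n → ℂ) : MvPolynomial (Fin n) ℂ →ₐ[ℂ] MvPolynomial (Fin n) ℂ :=
  aeval fun i => C (g i) * X i

theorem eval_sc (g : Fin n → ℂ) (f : MvPolynomial (Fin n) ℂ) (x : Fin n → ℂ) :
    eval x (sc g f) = eval (fun i => g i * x i) f := by
  rw [sc, ← aeval_eq_eval, ← aeval_eq_eval]
  have h : (aeval x).comp (aeval fun i => C (g i) * X i :
      MvPolynomial (Fin n) ℂ →ₐ[ℂ] MvPolynomial (Fin n) ℂ) = aeval (fun i => g i * x i) := by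
    ext i
    simp
  exact DFunLike.congr_fun h f

theorem dim_tl_le (g : Fin n → ℂ) (hg : ∀ i, g i ≠ 0) (V : Set (Fin n → ℂ)) :
    dim V ≤ dim (tl g V) := by
  have h1 : ∀ f ∈ idealOf (tl g V), sc g f ∈ idealOf V := by
    intro f hf
    rw [mem_idealOf] at hf ⊢
    intro x hx
    rw [eval_sc]
    exact hf _ ⟨x, hx, fun i => rfl⟩
  let φ : (MvPolynomial (Fin n) ℂ ⧸ idealOf (tl g V)) →ₐ[ℂ] (MvPolynomial (Fin n) ℂ ⧸ idealOf V) :=
    Ideal.Quotient.liftₐ _ ((Ideal.Quotient.mkₐ ℂ (idealOf V)).comp (sc g))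
      (fun f hf => Ideal.Quotient.eq_zero_iff_mem.2 (h1 f hf))
  have hφ : Function.Surjective φ := by
    intro y
    obtain ⟨f, rfl⟩ := Ideal.Quotient.mk_surjective y
    refine ⟨Ideal.Quotient.mk _ (aeval (fun i => C (g i)⁻¹ * X i :
      Fin n → MvPolynomial (Fin n) ℂ) f), ?_⟩
    change Ideal.Quotient.mk _ (sc g (aeval (fun i => C (g i)⁻¹ * X i :
      Fin n → MvPolynomial (Fin n) ℂ) f)) = _
    congr 1
    have h2 : (sc g).comp (aeval (fun i => C (g i)⁻¹ * X i :
      Fin n → MvPolynomial (Fin n) ℂ)) = AlgHom.id ℂ _ := by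
      ext1 i
      simp only [AlgHom.comp_apply, aeval_X, map_mul, sc, AlgHom.id_apply]
      rw [algHom_C, algebraMap_eq, ← mul_assoc, ← C_mul, inv_mul_cancel₀ (hg i), C_1, one_mul]
    exact DFunLike.congr_fun h2 f
  exact trdeg_le_of_surjective φ hφ

theorem sets_of_good (V : Set (Fin n → ℂ)) {d : ℕ} (hd : dim V = d) (G₀ : Finset ℂˣ)
    (g : Fin n → ℂ) (hg0 : ∀ j, g j ≠ 0) (hgood : Good (idealOf V) d G₀ g)
    (L : Submodule ℤ (Fin n → ℤ)) (η : Fin n → ℂ)
    (hη : ∀ i, ∃ m : ℕ, 0 < m ∧ ∃ c ∈ Subgroup.closure (G₀ : Set ℂˣ), η i ^ m = (c : ℂ))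
    (A : Set (Fin n → ℂ)) (hAV : A ⊆ tl g V) (hAT : A ⊆ coset L η) (hA : (idealOf A).IsPrime) :
    dim A + (Module.finrank ℤ L : Cardinal) ≤ dim (tl g V) := by
  classical
  refine le_trans ?_ (dim_tl_le g hg0 V)
  have hη0 : ∀ i, η i ≠ 0 := by
    intro i h0
    obtain ⟨m, hm, c, -, h1⟩ := hη i
    rw [h0, zero_pow hm.ne'] at h1
    exact c.ne_zero h1.symm
  -- the characters of the coset
  have hdiv : ∀ a : Fin n → ℤ, ∃ m : ℕ, 0 < m ∧ ∃ c ∈ Subgroup.closure (G₀ : Set ℂˣ),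
      chr η a ^ m = (c : ℂ) := by
    intro a
    have h1 : a ∈ divLat G₀ η hη0 := by
      have h2 : a = ∑ i, a i • (Pi.single i (1 : ℤ) : Fin n → ℤ) := by
        funext j
        rw [Finset.sum_apply, Finset.sum_eq_single j]
        · simp
        · intro b _ hb
          simp [Pi.single_eq_of_ne (Ne.symm hb)]
        · intro h; exact absurd (Finset.mem_univ _) h
      rw [h2]
      refine Submodule.sum_mem _ fun i _ => Submodule.smul_mem _ _ ?_
      obtain ⟨m, hm, c, hc, h3⟩ := hη i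
      refine ⟨m, hm, c, hc, ?_⟩
      rw [chr_single]
      exact h3
    exact h1
  set Q := idealOf A with hQ
  have hne : A.Nonempty := by
    rw [Set.nonempty_iff_ne_empty]
    rintro rfl
    apply hA.ne_top
    rw [hQ, Ideal.eq_top_iff_one, mem_idealOf]
    intro x hx
    exact absurd hx (Set.notMem_empty x)
  let B := MvPolynomial (Fin n) ℂ ⧸ Q
  let Ω := FractionRing B
  let ev : MvPolynomial (Fin n) ℂ →ₐ[ℂ] Ω :=
    (IsScalarTower.toAlgHom ℂ B Ω).comp (Ideal.Quotient.mkₐ ℂ Q)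
  have hev : ∀ f, ev f = 0 ↔ f ∈ Q := by
    intro f
    change algebraMap B Ω (Ideal.Quotient.mk Q f) = 0 ↔ _
    rw [← Ideal.Quotient.eq_zero_iff_mem]
    exact map_eq_zero_iff _ (IsFractionRing.injective B Ω)
  set z : Fin n → Ω := fun j => ev (X j) with hzdef
  have hevz : ∀ f, ev f = aeval z f := by
    intro f
    have h1 : ev = aeval z := by
      ext j
      simp [hzdef]
    rw [h1]
  have hz0 : ∀ j, z j ≠ 0 := by
    intro j h0
    rw [hzdef] at h0
    have h1 := (hev (X j)).1 h0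
    rw [hQ, mem_idealOf] at h1
    obtain ⟨x, hx⟩ := hne
    have h2 := h1 x hx
    rw [eval_X] at h2
    exact (hAT hx).1 j h2
  have hzV : ∀ f ∈ idealOf V, aeval (fun j => (algebraMap ℂ Ω (g j))⁻¹ * z j) f = 0 := by
    intro f hf
    rw [mem_idealOf] at hf
    set f' : MvPolynomial (Fin n) ℂ := aeval (fun i => C (g i)⁻¹ * X i :
      Fin n → MvPolynomial (Fin n) ℂ) f with hf'
    have h1 : f' ∈ Q := by
      rw [hQ, mem_idealOf]
      intro x hx
      obtain ⟨v, hv, hxv⟩ := hAV hx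
      have h2 : eval x f' = eval v f := by
        rw [hf', ← aeval_eq_eval, ← aeval_eq_eval]
        have h3 : (aeval x).comp (aeval (fun i => C (g i)⁻¹ * X i :
            Fin n → MvPolynomial (Fin n) ℂ)) = (aeval v : MvPolynomial (Fin n) ℂ →ₐ[ℂ] ℂ) := by
          ext i
          have h4 : g i ≠ 0 := hg0 i
          simp [hxv i, h4]
        exact DFunLike.congr_fun h3 f
      rw [h2]
      exact hf v hv
    have h5 := (hev f').2 h1
    rw [← h5, hf']
    have h6 : ev.comp (aeval (fun i => C (g i)⁻¹ * X i :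
        Fin n → MvPolynomial (Fin n) ℂ)) = aeval (fun j => (algebraMap ℂ Ω (g j))⁻¹ * z j) := by
      ext i
      simp only [AlgHom.comp_apply, aeval_X, map_mul]
      rw [← algebraMap_eq, AlgHom.commutes, map_inv₀]
    exact (DFunLike.congr_fun h6 f).symm
  have hzL : ∀ a ∈ L, ∃ k : ℕ, 0 < k ∧ ∃ c ∈ Subgroup.closure (G₀ : Set ℂˣ),
      chr z a ^ k = algebraMap ℂ Ω (c : ℂ) := by
    intro a ha
    obtain ⟨m, hm, c, hc, hεm⟩ := hdiv a
    refine ⟨m, hm, c, hc, ?_⟩
    set ε : ℂ := chr η a with hε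
    have hε' : ε = ∏ i, η i ^ a i := rfl
    have h1 : (∏ i, X i ^ (a i).toNat - C ε * ∏ i, X i ^ (-a i).toNat :
        MvPolynomial (Fin n) ℂ) ∈ Q := by
      rw [hQ, mem_idealOf]
      intro x hx
      obtain ⟨hx0, hx1⟩ := hAT hx
      have h2 := hx1 a ha
      have h3 : (∏ i, x i ^ (a i).toNat) = ε * ∏ i, x i ^ (-a i).toNat := by
        rw [hε', ← h2, ← Finset.prod_mul_distrib]
        refine Finset.prod_congr rfl fun i _ => ?_
        rw [← zpow_natCast, ← zpow_natCast, ← zpow_add₀ (hx0 i)]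
        congr 1
        omega
      simp only [map_sub, map_mul, map_prod, map_pow, eval_X, eval_C]
      rw [h3, sub_self]
    have e1 : ∀ k : Fin n → ℕ, ev (∏ i, X i ^ k i) = ∏ i, z i ^ k i := fun k => by
      rw [map_prod]
      exact Finset.prod_congr rfl fun i _ => map_pow _ _ _
    have h4 := (hev _).2 h1
    rw [map_sub, sub_eq_zero, map_mul, e1, e1] at h4
    have h5 : chr z a = algebraMap ℂ Ω ε := by
      have h6 : ev (C ε) = algebraMap ℂ Ω ε := by
        rw [← algebraMap_eq, AlgHom.commutes]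
      rw [h6] at h4
      have h7 : chr z a * ∏ i, z i ^ (-a i).toNat = ∏ i, z i ^ (a i).toNat := by
        rw [chr, ← Finset.prod_mul_distrib]
        refine Finset.prod_congr rfl fun i _ => ?_
        rw [← zpow_natCast, ← zpow_natCast, ← zpow_add₀ (hz0 i)]
        congr 1
        omega
      have h8 : (∏ i, z i ^ (-a i).toNat) ≠ 0 :=
        Finset.prod_ne_zero_iff.2 fun i _ => pow_ne_zero _ (hz0 i)
      exact mul_right_cancel₀ h8 (h7.trans h4)
    rw [h5, ← map_pow, hεm]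
  -- a transcendence basis among the coordinates
  have hadj : ∀ f : B, algebraMap B Ω f ∈ Algebra.adjoin ℂ (Set.range z) := by
    intro f
    obtain ⟨f, rfl⟩ := Ideal.Quotient.mk_surjective f
    have h1 : algebraMap B Ω (Ideal.Quotient.mk Q f) = aeval z f := hevz f
    rw [h1, Algebra.adjoin_range_eq_range_aeval]
    exact ⟨f, rfl⟩
  have halg : Algebra.IsAlgebraic (Algebra.adjoin ℂ (Set.range z)) Ω := by
    refine ⟨fun ω => ?_⟩
    obtain ⟨p, q, hq, rfl⟩ := IsFractionRing.div_surjective (A := B) ω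
    rw [div_eq_mul_inv]
    have hp' : IsAlgebraic (Algebra.adjoin ℂ (Set.range z)) (algebraMap B Ω p) :=
      isAlgebraic_algebraMap (⟨_, hadj p⟩ : Algebra.adjoin ℂ (Set.range z))
    have hq' : IsAlgebraic (Algebra.adjoin ℂ (Set.range z)) (algebraMap B Ω q) :=
      isAlgebraic_algebraMap (⟨_, hadj q⟩ : Algebra.adjoin ℂ (Set.range z))
    exact hp'.mul hq'.inv
  obtain ⟨t, hts, ht⟩ := exists_isTranscendenceBasis_subset (R := ℂ) (Set.range z)
  have hc : ∀ e : t, ∃ j, z j = e := fun e => hts e.2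
  choose c hc using hc
  have hcinj : Function.Injective c := by
    intro e e' hee
    exact Subtype.ext (by rw [← hc e, ← hc e', hee])
  have htfin : Finite t := Finite.of_injective c hcinj
  have : Fintype t := Fintype.ofFinite t
  set T : Finset (Fin n) := Finset.univ.image c with hT
  have hTt : ∀ j : T, ∃ e : t, c e = j := by
    rintro ⟨j, hj⟩
    obtain ⟨e, -, he⟩ := Finset.mem_image.1 hj
    exact ⟨e, he⟩
  choose φ hφ using hTt
  have hφinj : Function.Injective φ := by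
    intro j j' hjj
    exact Subtype.ext (by rw [← hφ j, ← hφ j', hjj])
  have hzφ : (fun j : T => z j) = (fun e : t => (e : Ω)) ∘ φ := by
    funext j
    simp only [Function.comp_apply]
    rw [← hc (φ j), hφ j]
  have hTind : AlgebraicIndependent ℂ (fun j : T => z j) := by
    rw [hzφ]
    exact ht.1.comp φ hφinj
  have hTrange : Set.range (fun j : T => z j) = Set.range (fun e : t => (e : Ω)) := by
    ext w
    constructor
    · rintro ⟨j, rfl⟩
      exact ⟨φ j, (congrFun hzφ j).symm⟩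
    · rintro ⟨e, rfl⟩
      refine ⟨⟨c e, Finset.mem_image_of_mem c (Finset.mem_univ e)⟩, hc e⟩
  have hTalg : ∀ j, IsAlgebraic (Algebra.adjoin ℂ (Set.range fun j : T => z j)) (z j) := by
    intro j
    rw [hTrange]
    exact ht.isAlgebraic.isAlgebraic (z j)
  have hkey := pos_of_good (idealOf V) G₀ g hg0 hgood Ω z hz0 hzV T hTind hTalg L hzL
  have hdimA : dim A ≤ (T.card : Cardinal) := by
    have h1 : dim A ≤ Algebra.trdeg ℂ Ω :=
      trdeg_le_of_injective (IsScalarTower.toAlgHom ℂ B Ω) (IsFractionRing.injective B Ω)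
    refine h1.trans (le_of_eq ?_)
    rw [← ht.cardinalMk_eq_trdeg, Cardinal.mk_fintype, hT,
      Finset.card_image_of_injective _ hcinj, Finset.card_univ]
  calc dim A + (Module.finrank ℤ L : Cardinal)
      ≤ (T.card : Cardinal) + (Module.finrank ℤ L : Cardinal) := by gcongr
    _ = ((Module.finrank ℤ L + T.card : ℕ) : Cardinal) := by push_cast; rw [add_comm]
    _ ≤ (d : Cardinal) := by exact_mod_cast hkey
    _ = dim V := hd.symm

/-- **Translates by vectors with valuations in general position** -/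
theorem translates (V : Set (Fin n → ℂ)) (hprime : (idealOf V).IsPrime) :
    ∃ κ : ℕ, ∀ Γ : Subgroup ℂˣ, Γ.FG → ∃ D : ℕ, ∀ L t : ℕ, κ * t < L → ∀ q : Fin L → ℕ,
      (∀ i, (q i).Prime ∧ D < q i) → ∀ e : Fin L → Fin n → ℤ,
      (∀ χ : Fin n → ℤ, χ ≠ 0 → {l | ∑ j, χ j * e l j = 0}.ncard ≤ t) → ∀ g : Fin n → ℂ,
      (∀ j, g j ≠ 0) →
      (∀ i j, ∀ O : ValuationSubring ℂ, (q i : ℂ) ∈ O.nonunits →
        O.valuation (g j) = O.valuation (q i : ℂ) ^ (e i j)) →
      ∀ (M : Submodule ℤ (Fin n → ℤ)) (η : Fin n → ℂ),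
        (∀ i, ∃ m : ℕ, 0 < m ∧ ∃ γ ∈ Γ, η i ^ m = (γ : ℂ)) →
        ∀ A : Set (Fin n → ℂ), A ⊆ tl g V → A ⊆ coset M η → (idealOf A).IsPrime →
          dim A + (Module.finrank ℤ M : Cardinal) ≤ dim (tl g V) := by
  have hfin : Algebra.trdeg ℂ (MvPolynomial (Fin n) ℂ ⧸ idealOf V) < Cardinal.aleph0 :=
    trdeg_lt_aleph0_of_finiteType
  obtain ⟨d, hd⟩ := Cardinal.lt_aleph0.1 hfin
  obtain ⟨κ, hκ⟩ := exists_good (idealOf V) hd
  refine ⟨κ, fun Γ hΓ => ?_⟩
  obtain ⟨G₀, hG₀⟩ := hΓ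
  obtain ⟨D, hD⟩ := hκ G₀
  refine ⟨D, fun L t hL q hq e he g hg0 hg M η hη A hAV hAT hA => ?_⟩
  rw [← hG₀] at hη
  exact sets_of_good V hd G₀ g hg0 (hD L t hL q hq e he g hg) M η hη A hAV hAT hA

end Pool.Agent.N712.ZT
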